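import Pool.Agent.W2helper8.ZQ.Stm

/-! # Piece ZQ-EXPJ (project ZQ, MP_aa9ae4_nt): expanding the square of a short polynomial. -/

set_option autoImplicit false

namespace Pool.Agent.W2helper78.ZQ

open Finset Filter Topology MeasureTheory Complex
open Pool.Agent.W2helper8.ZQ

theorem p_expj : S_EXPJ := by
  intro a T w M N c hT hw
  rw [← intervalIntegral.integral_ofReal]
  have h1 : ∀ t : ℝ, ((w t * Z2 t *
      ‖∑ n ∈ Ioc M N, (c n : ℂ) * e (-(a * Real.log n * t))‖ ^ 2 : ℝ) : ℂ) =
      ∑ m ∈ Ioc M N, ∑ n ∈ Ioc M N, ((c m * c n : ℝ) : ℂ) *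
        (((w t * Z2 t : ℝ) : ℂ) * e (a * (Real.log n - Real.log m) * t)) := by
    intro t
    have h2 : ((‖∑ n ∈ Ioc M N, (c n : ℂ) * e (-(a * Real.log n * t))‖ : ℂ)) ^ 2 =
        ∑ m ∈ Ioc M N, ∑ n ∈ Ioc M N, ((c m * c n : ℝ) : ℂ) *
          e (a * (Real.log n - Real.log m) * t) := by
      rw [← Complex.mul_conj', map_sum, Finset.sum_mul_sum]
      refine Finset.sum_congr rfl fun m _ => Finset.sum_congr rfl fun n _ => ?_
      rw [map_mul, Complex.conj_ofReal, conj_e, neg_neg]
      have h3 : e (a * (Real.log n - Real.log m) * t) =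
          e (-(a * Real.log m * t)) * e (a * Real.log n * t) := by
        rw [← e_add]
        congr 1
        ring
      rw [h3]
      push_cast
      ring
    rw [Complex.ofReal_mul, Complex.ofReal_pow, h2, Finset.mul_sum]
    refine Finset.sum_congr rfl fun m _ => ?_
    rw [Finset.mul_sum]
    refine Finset.sum_congr rfl fun n _ => ?_
    ring
  have hc : ∀ φ : ℝ, Continuous (fun t : ℝ => ((w t * Z2 t : ℝ) : ℂ) * e (φ * t)) := by
    intro φ
    exact (Complex.continuous_ofReal.comp (hw.mul Z2_cont)).mul (e_cont.comp (by fun_prop))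
  rw [intervalIntegral.integral_congr (fun t _ => h1 t)]
  rw [intervalIntegral.integral_finsetSum]
  · refine Finset.sum_congr rfl fun m _ => ?_
    rw [intervalIntegral.integral_finsetSum]
    · refine Finset.sum_congr rfl fun n _ => ?_
      rw [intervalIntegral.integral_const_mul]
      rfl
    · intro n _
      exact (continuous_const.mul (hc _)).intervalIntegrable _ _
  · intro m _
    refine Continuous.intervalIntegrable ?_ _ _
    exact continuous_finsetSum _ fun n _ => continuous_const.mul (hc _)

end Pool.Agent.W2helper78.ZQ
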