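import Pool.Agent.W2helper8.ZQ.Stm

/-! # Piece ZQ-TP (project ZQ, MP_aa9ae4_nt): the twisted moments of all pairs. -/

set_option autoImplicit false

namespace Pool.Agent.W2helper78.ZQ

open Finset Filter Topology MeasureTheory Complex
open Pool.Agent.W2helper8.ZQ

/-- the comparison of the main terms -/
lemma tp_main {x T : ℝ} {h k : ℕ} (hT : 1 ≤ T) (hx : 1 ≤ x) (hG : Good x T h k) :
    1 / (k * Real.sqrt x) ≤ 2 * ((h : ℝ) * k) ^ (-(1 / 2) : ℝ) := by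
  obtain ⟨h1, h2, h3, -⟩ := hG
  have hh : (1 : ℝ) ≤ h := by exact_mod_cast h1
  have hk : (1 : ℝ) ≤ k := by exact_mod_cast h2
  have hT' : T ^ (-(1 / 4) : ℝ) ≤ 1 := Real.rpow_le_one_of_one_le_of_nonpos hT (by norm_num)
  have h4 : (h : ℝ) ≤ k * x + 1 := by
    have := (abs_le.1 (le_trans h3 hT')).1
    linarith
  have h5 : (h : ℝ) ≤ 2 * (k * x) := by nlinarith
  have hk0 : (0 : ℝ) < k := by linarith
  have hh0 : (0 : ℝ) < h := by linarith
  rw [Real.rpow_neg (by positivity), ← Real.sqrt_eq_rpow, ← div_eq_mul_inv,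
    div_le_div_iff₀ (by positivity) (by positivity), one_mul]
  have h6 : Real.sqrt (h * k) ≤ Real.sqrt ((2 * (k * Real.sqrt x)) ^ 2) := by
    apply Real.sqrt_le_sqrt
    rw [mul_pow, mul_pow, Real.sq_sqrt (by linarith)]
    nlinarith [mul_le_mul_of_nonneg_right h5 hk0.le]
  rwa [Real.sqrt_sq (by positivity)] at h6

theorem p_tp (h1 : S_JB) (h2 : S_PAIR) : S_TP := by
  intro a B C ha hB hC
  obtain ⟨K, hK, hJ⟩ := h1 C hC
  refine ⟨2 * K, by positivity, ?_⟩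
  have hev := (isLittleO_log_rpow_rpow_atTop (B * a) (show (0 : ℝ) < 1 / 2 by norm_num)).def
    (show (0 : ℝ) < 1 by norm_num)
  filter_upwards [h2 a B ha hB, hev, eventually_ge_atTop 2, eventually_gt_atTop (Real.exp 1)]
    with T hP hT1 hT2 hT3
  have hT0 : 0 < T := by linarith
  have hL : 1 ≤ Real.log T := by
    rw [Real.le_log_iff_exp_le hT0]; exact hT3.le
  have hL0 : 0 < Real.log T := by linarith
  rw [Real.norm_of_nonneg (Real.rpow_nonneg hL0.le _), Real.norm_of_nonneg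
    (Real.rpow_nonneg hT0.le _), one_mul, ← Real.sqrt_eq_rpow] at hT1
  intro κ w hw
  -- the chosen fraction
  have key : ∀ p : ℕ × ℕ, ∃ q : ℕ × ℕ, (1 ≤ p.2 → p.2 ≤ p.1 → (p.1 : ℝ) ≤ Real.log T ^ B →
      Good (((p.1 : ℝ) / p.2) ^ a) T q.1 q.2 ∧
      ‖J w T (a * (Real.log p.1 - Real.log p.2))‖ ≤
        2 * K * T * (Real.log T * ((q.1 : ℝ) * q.2) ^ (-(1 / 2) : ℝ) +
          Real.sqrt (Real.log T))) := by
    intro p
    by_cases hc : 1 ≤ p.2 ∧ p.2 ≤ p.1 ∧ (p.1 : ℝ) ≤ Real.log T ^ B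
    · obtain ⟨c1, c2, c3⟩ := hc
      have hn0 : (0 : ℝ) < p.2 := by exact_mod_cast c1
      have hm0 : (0 : ℝ) < p.1 := by exact_mod_cast (lt_of_lt_of_le c1 c2)
      have hnm : (p.2 : ℝ) ≤ p.1 := by exact_mod_cast c2
      have hn1 : (1 : ℝ) ≤ p.2 := by exact_mod_cast c1
      have hr1 : 1 ≤ (p.1 : ℝ) / p.2 := by rw [le_div_iff₀ hn0]; linarith
      have hr2 : (p.1 : ℝ) / p.2 ≤ Real.log T ^ B := by
        rw [div_le_iff₀ hn0]
        have : 0 < Real.log T ^ B := Real.rpow_pos_of_pos hL0 _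
        nlinarith
      have hx1 : 1 ≤ ((p.1 : ℝ) / p.2) ^ a := Real.one_le_rpow hr1 ha.le
      have hx2 : ((p.1 : ℝ) / p.2) ^ a ≤ Real.sqrt T := by
        refine le_trans (Real.rpow_le_rpow (by positivity) hr2 ha.le) ?_
        rw [← Real.rpow_mul hL0.le]
        exact hT1
      obtain ⟨h, k, hG, hb⟩ := hJ T κ w hT2 hw _ hx1 hx2
      refine ⟨(h, k), fun _ _ _ => ⟨hG, ?_⟩⟩
      have hlog : Real.log (((p.1 : ℝ) / p.2) ^ a) = a * (Real.log p.1 - Real.log p.2) := by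
        rw [Real.log_rpow (by positivity), Real.log_div hm0.ne' hn0.ne']
      rw [hlog] at hb
      refine le_trans hb ?_
      have hm := tp_main (by linarith) hx1 hG
      have hs : 0 ≤ Real.sqrt (Real.log T) := Real.sqrt_nonneg _
      have e1 : Real.log T / (k * Real.sqrt (((p.1 : ℝ) / p.2) ^ a)) ≤
          2 * (Real.log T * ((h : ℝ) * k) ^ (-(1 / 2) : ℝ)) := by
        rw [div_eq_mul_one_div]
        nlinarith
      calc K * T * (Real.log T / (k * Real.sqrt (((p.1 : ℝ) / p.2) ^ a)) +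
            Real.sqrt (Real.log T))
          ≤ K * T * (2 * (Real.log T * ((h : ℝ) * k) ^ (-(1 / 2) : ℝ)) +
            2 * Real.sqrt (Real.log T)) := by
            gcongr
            linarith
        _ = 2 * K * T * (Real.log T * ((h : ℝ) * k) ^ (-(1 / 2) : ℝ) +
            Real.sqrt (Real.log T)) := by ring
    · exact ⟨(1, 1), fun c1 c2 c3 => absurd ⟨c1, c2, c3⟩ hc⟩
  choose f hf using key
  refine ⟨f, ?_, ?_⟩
  · intro p c1 c2 c3
    obtain ⟨hG, hb⟩ := hf p c1 c2 c3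
    exact ⟨hG.1, hG.2.1, hb⟩
  · intro p q c1 c2 c3 d1 d2 d3 hfe
    obtain ⟨hG, -⟩ := hf p c1 c2 c3
    obtain ⟨hG', -⟩ := hf q d1 d2 d3
    rw [← hfe] at hG'
    exact hP p.1 p.2 q.1 q.2 (f p).1 (f p).2 c1 c2 c3 d1 d2 d3 hG.2.1 hG.2.2.1 hG'.2.2.1

end Pool.Agent.W2helper78.ZQ
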