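import Pool.Agent.W2helper8.ZQ.Stm

/-! # Piece ZQ-PAIR (project ZQ, MP_aa9ae4_nt): close powers of fractions are equal. -/

set_option autoImplicit false

namespace Pool.Agent.W2helper78.ZQ

open Finset Filter Topology MeasureTheory Complex
open Pool.Agent.W2helper8.ZQ

/-- one of the two cases -/
lemma pair_aux {a B T : ℝ} (ha : 0 < a) (hB : 0 < B) (hL : 1 ≤ Real.log T)
    (hT : 2 * T ^ (-(1 / 4) : ℝ) < a * (Real.log T ^ (3 * B))⁻¹) {m n m' n' h k : ℕ}
    (hn : 1 ≤ n) (hnm : n ≤ m) (hm : (m : ℝ) ≤ Real.log T ^ B) (hn' : 1 ≤ n') (hnm' : n' ≤ m')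
    (hm' : (m' : ℝ) ≤ Real.log T ^ B) (hk : 1 ≤ k)
    (h1 : |k * ((m : ℝ) / n) ^ a - h| ≤ T ^ (-(1 / 4) : ℝ))
    (h2 : |k * ((m' : ℝ) / n') ^ a - h| ≤ T ^ (-(1 / 4) : ℝ)) : ¬ (m * n' < m' * n) := by
  intro hlt
  set L := Real.log T with hLdef
  have hn0 : (0 : ℝ) < n := by exact_mod_cast hn
  have hn0' : (0 : ℝ) < n' := by exact_mod_cast hn'
  have hm0 : (0 : ℝ) < m := by exact_mod_cast (lt_of_lt_of_le hn hnm)
  have hm0' : (0 : ℝ) < m' := by exact_mod_cast (lt_of_lt_of_le hn' hnm')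
  have hnmR : (n : ℝ) ≤ m := by exact_mod_cast hnm
  have hnmR' : (n' : ℝ) ≤ m' := by exact_mod_cast hnm'
  have hkR : (1 : ℝ) ≤ k := by exact_mod_cast hk
  have hL0 : 0 < L := by linarith
  have hP : 0 < L ^ B := Real.rpow_pos_of_pos hL0 _
  have hP1 : 1 ≤ L ^ B := Real.one_le_rpow hL hB.le
  set x : ℝ := (m : ℝ) / n with hx
  set y : ℝ := (m' : ℝ) / n' with hy
  have hx1 : 1 ≤ x := by rw [hx, le_div_iff₀ hn0]; linarith
  have hx0 : 0 < x := by linarith
  have hy1 : 1 ≤ y := by rw [hy, le_div_iff₀ hn0']; linarith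
  have hy0 : 0 < y := by linarith
  -- `y - x ≥ 1/(n n')`
  have hyx : (y - x) * (n * n') = m' * n - m * n' := by
    rw [hx, hy]; field_simp
  have hge : (1 : ℝ) ≤ m' * n - m * n' := by
    have : m * n' + 1 ≤ m' * n := hlt
    have h3 : ((m * n' + 1 : ℕ) : ℝ) ≤ ((m' * n : ℕ) : ℝ) := by exact_mod_cast this
    push_cast at h3
    linarith
  have hnn : (n : ℝ) * n' ≤ L ^ B * L ^ B := by
    apply mul_le_mul (le_trans hnmR hm) (le_trans hnmR' hm') hn0'.le hP.le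
  have hdiff : (L ^ B * L ^ B)⁻¹ ≤ y - x := by
    rw [inv_le_iff_one_le_mul₀ (by positivity)]
    have h4 : 0 ≤ y - x := by
      by_contra hneg
      push Not at hneg
      have : (y - x) * (n * n') < 0 := mul_neg_of_neg_of_pos hneg (by positivity)
      rw [hyx] at this
      linarith
    calc (1 : ℝ) ≤ (y - x) * (n * n') := by rw [hyx]; exact hge
      _ ≤ (y - x) * (L ^ B * L ^ B) := by gcongr
  have hyP : y ≤ L ^ B := by
    rw [hy, div_le_iff₀ hn0']
    have : (1 : ℝ) ≤ n' := by exact_mod_cast hn'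
    nlinarith
  -- `log (y/x) ≥ (y - x)/y`
  have hlog : (y - x) / y ≤ Real.log (y / x) := by
    have h5 := Real.one_sub_inv_le_log_of_pos (div_pos hy0 hx0)
    have h6 : (y - x) / y = 1 - (y / x)⁻¹ := by field_simp
    rw [h6]; exact h5
  have hlow : (L ^ (3 * B))⁻¹ ≤ (y - x) / y := by
    rw [le_div_iff₀ hy0]
    have h7 : L ^ (3 * B) = L ^ B * L ^ B * L ^ B := by
      rw [← Real.rpow_add hL0, ← Real.rpow_add hL0]; congr 1; ring
    rw [h7, mul_inv]
    calc (L ^ B * L ^ B)⁻¹ * (L ^ B)⁻¹ * y ≤ (L ^ B * L ^ B)⁻¹ * (L ^ B)⁻¹ * L ^ B := by gcongr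
      _ = (L ^ B * L ^ B)⁻¹ := by field_simp
      _ ≤ y - x := hdiff
  have hpow : a * Real.log (y / x) ≤ y ^ a - x ^ a := by
    have h8 : y ^ a = x ^ a * (y / x) ^ a := by
      rw [← Real.mul_rpow hx0.le (div_pos hy0 hx0).le]
      congr 1; field_simp
    have h9 : a * Real.log (y / x) + 1 ≤ (y / x) ^ a := by
      rw [Real.rpow_def_of_pos (div_pos hy0 hx0), mul_comm (Real.log _)]
      exact Real.add_one_le_exp _
    have h10 : 1 ≤ x ^ a := Real.one_le_rpow hx1 ha.le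
    have h11 : 0 ≤ (y / x) ^ a - 1 := by
      have : 0 ≤ Real.log (y / x) := le_trans (le_trans (by positivity) hlow) hlog
      have : 0 ≤ a * Real.log (y / x) := by positivity
      linarith
    rw [h8]
    nlinarith
  have hfin : a * (L ^ (3 * B))⁻¹ ≤ y ^ a - x ^ a := by
    refine le_trans ?_ hpow
    gcongr
    exact le_trans hlow hlog
  have hup : k * (y ^ a - x ^ a) ≤ 2 * T ^ (-(1 / 4) : ℝ) := by
    have h12 := (abs_le.1 h1).1
    have h13 := (abs_le.1 h2).2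
    linarith
  have hpos : 0 ≤ y ^ a - x ^ a := le_trans (by positivity) hfin
  have : y ^ a - x ^ a ≤ k * (y ^ a - x ^ a) := by nlinarith
  linarith

lemma ev_pair {a B : ℝ} (ha : 0 < a) : ∀ᶠ T : ℝ in atTop,
    2 * T ^ (-(1 / 4) : ℝ) < a * (Real.log T ^ (3 * B))⁻¹ := by
  have h1 := (isLittleO_log_rpow_rpow_atTop (3 * B) (show (0 : ℝ) < 1 / 4 by norm_num)).def
    (show 0 < a / 4 by positivity)
  filter_upwards [h1, eventually_gt_atTop (Real.exp 1)] with T hT hT1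
  have hT0 : 0 < T := lt_trans (Real.exp_pos 1) hT1
  have hL : 1 < Real.log T := by
    rw [Real.lt_log_iff_exp_lt hT0]; exact hT1
  have hLp : 0 < Real.log T ^ (3 * B) := Real.rpow_pos_of_pos (by linarith) _
  have hTp : 0 < T ^ (1 / 4 : ℝ) := Real.rpow_pos_of_pos hT0 _
  rw [Real.norm_of_nonneg hLp.le, Real.norm_of_nonneg hTp.le] at hT
  rw [Real.rpow_neg hT0.le]
  rw [← div_eq_mul_inv, ← div_eq_mul_inv, div_lt_div_iff₀ hTp hLp]
  nlinarith

theorem p_pair : S_PAIR := by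
  intro a B ha hB
  filter_upwards [ev_pair (B := B) ha, eventually_gt_atTop (Real.exp 1)] with T hT hT1
  have hT0 : 0 < T := lt_trans (Real.exp_pos 1) hT1
  have hL : 1 ≤ Real.log T := by
    rw [Real.le_log_iff_exp_le hT0]; exact hT1.le
  intro m n m' n' h k hn hnm hm hn' hnm' hm' hk h1 h2
  have e1 := pair_aux ha hB hL hT hn hnm hm hn' hnm' hm' hk h1 h2
  have e2 := pair_aux ha hB hL hT hn' hnm' hm' hn hnm hm hk h2 h1
  omega

end Pool.Agent.W2helper78.ZQ
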